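import Pool.Agent.W945.Pw.Stm

/-! # Subtask PW-KWISE: polynomials of degree less than `k` give `k`-wise independent bits -/

namespace Pool.Agent.W494.Pw.KWISE

open Pool.Agent.W945.Pw Finset

/-- The sign of an element of `ZMod 2`. -/
noncomputable def psi (z : ZMod 2) : ℝ := sg (decide (z = 1))

theorem psi_add : ∀ a b : ZMod 2, psi (a + b) = psi a * psi b := by
  intro a b
  have h1 : (1 : ZMod 2) + 1 = 0 := by decide
  have h2 : (0 : ZMod 2) ≠ 1 := by decide
  have hc : ∀ c : ZMod 2, c = 0 ∨ c = 1 := by decide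
  rcases hc a with rfl | rfl <;> rcases hc b with rfl | rfl <;>
    simp [psi, sg, h1]

theorem psi_zero : psi 0 = 1 := by
  simp [psi, sg]

theorem psi_one : psi 1 = -1 := by
  simp [psi, sg]

theorem psi_sum {ι : Type} (S : Finset ι) (f : ι → ZMod 2) :
    psi (∑ i ∈ S, f i) = ∏ i ∈ S, psi (f i) := by
  classical
  induction S using Finset.induction_on with
  | empty => simp [psi_zero]
  | insert a S ha ih => rw [sum_insert ha, prod_insert ha, psi_add, ih]

/-- `chi` of the bits. -/
theorem chi_bits {F : Type} [Field F] {n k : ℕ} (lam : F →+ ZMod 2) (pt : Fin n → F)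
    (S : Finset (Fin n)) (a : Fin k → F) :
    chi S (bits k lam pt a) =
      psi (lam (∑ j : Fin k, a j * ∑ i ∈ S, pt i ^ (j : ℕ))) := by
  have h1 : (∑ j : Fin k, a j * ∑ i ∈ S, pt i ^ (j : ℕ)) =
      ∑ i ∈ S, ∑ j : Fin k, a j * pt i ^ (j : ℕ) := by
    rw [sum_comm]
    refine sum_congr rfl fun j _ => ?_
    rw [mul_sum]
  rw [h1, map_sum, psi_sum]
  rfl

/-- Some power sum does not vanish. -/
theorem exists_ne {F : Type} [Field F] {n k : ℕ} (pt : Fin n → F) (hpt : Function.Injective pt)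
    (S : Finset (Fin n)) (hS : S.Nonempty) (hk : S.card ≤ k) :
    ∃ j : Fin k, (∑ i ∈ S, pt i ^ (j : ℕ)) ≠ 0 := by
  classical
  by_contra hcon
  push Not at hcon
  obtain ⟨i₀, hi₀⟩ := hS
  -- all polynomials of degree less than k
  have hq : ∀ q : Polynomial F, q.natDegree < k → ∑ i ∈ S, q.eval (pt i) = 0 := by
    intro q hq
    have h1 : ∀ i, q.eval (pt i) = ∑ j ∈ range k, q.coeff j * pt i ^ j := fun i =>
      Polynomial.eval_eq_sum_range' hq (pt i)
    simp only [h1]
    rw [sum_comm]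
    refine sum_eq_zero fun j hj => ?_
    rw [← mul_sum, hcon ⟨j, mem_range.1 hj⟩, mul_zero]
  have hdeg : (∏ i ∈ S.erase i₀, (Polynomial.X - Polynomial.C (pt i))).natDegree < k := by
    rw [Polynomial.natDegree_prod_of_monic _ _ (fun i _ => Polynomial.monic_X_sub_C (pt i))]
    simp only [Polynomial.natDegree_X_sub_C, sum_const, smul_eq_mul, mul_one]
    rw [card_erase_of_mem hi₀]
    have : 0 < S.card := card_pos.2 ⟨i₀, hi₀⟩
    omega
  have h2 := hq _ hdeg
  rw [← add_sum_erase S _ hi₀] at h2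
  have h3 : ∑ i ∈ S.erase i₀,
      (∏ l ∈ S.erase i₀, (Polynomial.X - Polynomial.C (pt l))).eval (pt i) = 0 := by
    refine sum_eq_zero fun i hi => ?_
    rw [Polynomial.eval_prod]
    refine prod_eq_zero hi ?_
    simp
  rw [h3, add_zero, Polynomial.eval_prod] at h2
  rw [prod_eq_zero_iff] at h2
  obtain ⟨l, hl, hl0⟩ := h2
  rw [Polynomial.eval_sub, Polynomial.eval_X, Polynomial.eval_C, sub_eq_zero] at hl0
  exact (mem_erase.1 hl).1 (hpt hl0).symm

theorem main : KWISE.Stm := by
  classical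
  intro F _ _ n k lam pt hlam hpt S hS hk
  obtain ⟨j, hj⟩ := exists_ne pt hpt S hS hk
  -- a value with lam z = 1
  obtain ⟨z, hz⟩ : ∃ z, lam z = 1 := by
    by_contra hcon
    push Not at hcon
    refine hlam ?_
    ext x
    have hc : ∀ c : ZMod 2, c ≠ 1 → c = 0 := by decide
    exact hc _ (hcon x)
  set c : Fin k → F := fun j => ∑ i ∈ S, pt i ^ (j : ℕ) with hcdef
  have hflip : ∀ a : Fin k → F, chi S (bits k lam pt (a + Pi.single j (z / c j))) =
      - chi S (bits k lam pt a) := by
    intro a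
    rw [chi_bits, chi_bits]
    have h1 : (∑ j' : Fin k, (a + Pi.single j (z / c j) : Fin k → F) j' * ∑ i ∈ S, pt i ^ (j' : ℕ)) =
        (∑ j' : Fin k, a j' * ∑ i ∈ S, pt i ^ (j' : ℕ)) + z := by
      simp only [Pi.add_apply, add_mul, sum_add_distrib]
      congr 1
      rw [Finset.sum_eq_single j]
      · rw [Pi.single_eq_same]
        exact div_mul_cancel₀ z hj
      · intro b _ hb
        rw [Pi.single_eq_of_ne hb, zero_mul]
      · intro h
        exact absurd (mem_univ j) h
    rw [h1, map_add, psi_add, hz, psi_one]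
    ring
  have hsum : ∑ a : Fin k → F, chi S (bits k lam pt a) =
      - ∑ a : Fin k → F, chi S (bits k lam pt a) := by
    conv_lhs => rw [← Equiv.sum_comp (Equiv.addRight (Pi.single j (z / c j)))]
    rw [← sum_neg_distrib]
    refine sum_congr rfl fun a _ => ?_
    exact hflip a
  linarith

end Pool.Agent.W494.Pw.KWISE
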